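import Pool.Agent.Coam.Main

/-!
# MP_bd00de_al: coamenable subgroups of `SL₂(ℤ[1/p])`

Let `p` be a prime and `Γ = SL₂(ℤ[1/p])`, an irreducible lattice of `SL₂(ℝ) × SL₂(ℚ_p)` (rank two,
no factor with property (T)).

* For every `r` there are a finite set `S` and `ε > 0` which are a spectral gap of `ℓ²(Γ/Λ)` for every
  subgroup `Λ` of infinite index that has a presentation with `r` relators.
* The same holds for all `Λ` of infinite index such that
  `dim H²(Λ ∩ Γ(q); M) ≤ r dim M` for some finite-dimensional `M ≠ 0`.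
* Every finitely presented coamenable subgroup of `Γ` has finite index.
-/

open Coam

namespace Pool.Agent.Variants.MP_bd00de_al.FinitelyPresented

theorem result (p : ℕ) [Fact p.Prime] :
    (∀ r : ℕ, ∃ (S : Finset (Gp p)) (ε : ℝ), 0 < ε ∧ ∀ Λ : Subgroup (Gp p), Λ.index = 0 →
      RelLe r Λ → Gap Λ S ε) ∧
    (∀ (q : ℕ) (h : Nat.Coprime p q), 2 < q → ∀ (F : Type) [Field F] (r : ℕ),
      ∃ (S : Finset (Gp p)) (ε : ℝ), 0 < ε ∧ ∀ Λ : Subgroup (Gp p), Λ.index = 0 →
        H2Le F r ↥(Λ ⊓ Gq p q h) → Gap Λ S ε) ∧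
    (∀ Λ : Subgroup (Gp p), Coamenable Λ → Group.IsFinitelyPresented Λ → Λ.FiniteIndex) :=
  ⟨(main p).1, (main p).2.1, (main p).2.2.1⟩

end Pool.Agent.Variants.MP_bd00de_al.FinitelyPresented
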